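import Pool.Agent.Q283.PQ.Stm

/-!
# Project PQ (helper283), job YXX: the number of the unlinked vectors
-/

set_option autoImplicit false

namespace Pool.Agent.Q265.PQ

open Finset
open Pool.Agent.Q283.FT (U2 om)

/-- the Weil pairing, computable form -/
def om' (a b : U2) : ZMod 2 := a.1 * b.2 + a.2 * b.1

theorem om_eq (a b : U2) : om a b = om' a b := rfl

theorem tri : ∀ d1 d2 u1 u2 : U2, d1 ≠ 0 → d2 ≠ 0 → d1 ≠ d2 → om' u1 d1 = 0 → om' u2 d2 = 0 →
    om' (u1 + u2) (d1 + d2) = 0 → ∃ ε : ZMod 2, u1 = ε • d1 ∧ u2 = ε • d2 := by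
  decide

theorem eps_inj : ∀ (d : U2) (a b : ZMod 2), d ≠ 0 → a • d = b • d → a = b := by
  decide

theorem two_self : ∀ a : U2, a + a = 0 := by
  decide

theorem om_line : ∀ (v u : U2), v ≠ 0 → om' u v = 0 → ∃ a : ZMod 2, u = a • v := by
  decide

theorem om_vv : ∀ (v : U2) (a b : ZMod 2), om' (a • v + b • v) v = 0 := by
  decide

theorem om_zero : ∀ u : U2, om' u 0 = 0 := by
  decide

theorem exists_compl : ∀ v : U2, v ≠ 0 → ∃ u : U2, ∀ c : U2, ∃ a b : ZMod 2,
    c = b • u + a • v := by
  decide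

theorem add_eq_zero_iff' {a b : U2} : a + b = 0 ↔ a = b := by
  constructor
  · intro h
    have h1 := congrArg (fun t => t + b) h
    simp only [add_assoc, two_self, add_zero, zero_add] at h1
    exact h1
  · rintro rfl
    exact two_self a

theorem add_shift (a b c : U2) : (a + c) + (b + c) = a + b := by
  have h := two_self c
  calc (a + c) + (b + c) = a + b + (c + c) := by abel
    _ = a + b := by rw [h, add_zero]

/-- the triangle with base point `p` -/
theorem triangle {k : ℕ} {x W : Fin k → U2}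
    (hW : ∀ i j, om' (W i + W j) (x i + x j) = 0) (p i j : Fin k) (h1 : x i ≠ x p)
    (h2 : x j ≠ x p) (h3 : x i ≠ x j) :
    ∃ ε : ZMod 2, W i + W p = ε • (x i + x p) ∧ W j + W p = ε • (x j + x p) := by
  refine tri (x i + x p) (x j + x p) (W i + W p) (W j + W p)
    (fun h => h1 (add_eq_zero_iff'.mp h)) (fun h => h2 (add_eq_zero_iff'.mp h))
    (fun h => h3 (add_right_cancel h)) (hW i p) (hW j p) ?_
  rw [add_shift, add_shift]
  exact hW i j

theorem structA {k : ℕ} {x W : Fin k → U2}
    (hW : ∀ i j, om' (W i + W j) (x i + x j) = 0) {i0 i1 i2 : Fin k} (h1 : x i1 ≠ x i0)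
    (h2 : x i2 ≠ x i0) (h3 : x i1 ≠ x i2) :
    ∃ (c : U2) (ε : ZMod 2), ∀ m, W m = c + ε • x m := by
  obtain ⟨ε, e1, e2⟩ := triangle hW i0 i1 i2 h1 h2 h3
  have key : ∀ m, W m + W i0 = ε • (x m + x i0) := by
    intro m
    by_cases hm : x m = x i0
    · obtain ⟨ε', f1, f2⟩ := triangle hW i1 i2 m (Ne.symm h3) (by rw [hm]; exact h1.symm)
        (by rw [hm]; exact h2)
      have g1 : W i2 + W i1 = ε • (x i2 + x i1) := by
        rw [← add_shift (W i2) (W i1) (W i0), e1, e2, ← smul_add, add_shift]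
      have hε : ε' = ε := by
        refine eps_inj (x i2 + x i1) ε' ε (fun h => h3 (add_eq_zero_iff'.mp h).symm) ?_
        rw [← f1, g1]
      rw [hε] at f2
      have g2 : W m + W i0 = (W m + W i1) + (W i0 + W i1) := (add_shift _ _ _).symm
      have g3 : x m + x i0 = (x m + x i1) + (x i0 + x i1) := (add_shift _ _ _).symm
      rw [g2, g3, f2, add_comm (W i0) (W i1), e1, add_comm (x i0) (x i1), ← smul_add]
    · by_cases hm1 : x m = x i1
      · obtain ⟨ε', f1, f2⟩ := triangle hW i0 i2 m h2 hm (by rw [hm1]; exact h3.symm)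
        have hε : ε' = ε := by
          refine eps_inj (x i2 + x i0) ε' ε (fun h => h2 (add_eq_zero_iff'.mp h)) ?_
          rw [← f1, e2]
        rw [hε] at f2
        exact f2
      · obtain ⟨ε', f1, f2⟩ := triangle hW i0 i1 m h1 hm (fun h => hm1 h.symm)
        have hε : ε' = ε := by
          refine eps_inj (x i1 + x i0) ε' ε (fun h => h1 (add_eq_zero_iff'.mp h)) ?_
          rw [← f1, e1]
        rw [hε] at f2
        exact f2
  refine ⟨W i0 + ε • x i0, ε, fun m => ?_⟩
  have h4 := key m
  have h5 : W m = (W m + W i0) + W i0 := by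
    rw [add_assoc, two_self, add_zero]
  rw [h5, h4, smul_add]
  abel

theorem structB {k : ℕ} {x W : Fin k → U2}
    (hW : ∀ i j, om' (W i + W j) (x i + x j) = 0) (hne : ∃ i j, x i ≠ x j) {v : U2}
    (hv : v ≠ 0) (hx : ∀ i j, x i + x j = 0 ∨ x i + x j = v) (i0 : Fin k) :
    ∀ m, ∃ a : ZMod 2, W m + W i0 = a • v := by
  have hstep : ∀ i j, x i ≠ x j → ∃ a : ZMod 2, W i + W j = a • v := by
    intro i j hij
    have h1 : x i + x j = v := (hx i j).resolve_left fun h => hij (add_eq_zero_iff'.mp h)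
    have h2 := hW i j
    rw [h1] at h2
    exact om_line v _ hv h2
  intro m
  by_cases hm : x m = x i0
  · obtain ⟨j, hj⟩ : ∃ j, x j ≠ x i0 := by
      by_contra hcon
      push Not at hcon
      obtain ⟨i, j, hij⟩ := hne
      exact hij ((hcon i).trans (hcon j).symm)
    obtain ⟨a, ha⟩ := hstep m j (by rw [hm]; exact hj.symm)
    obtain ⟨b, hb⟩ := hstep i0 j hj.symm
    refine ⟨a + b, ?_⟩
    rw [← add_shift (W m) (W i0) (W j), ha, hb, add_smul]
  · exact hstep m i0 hm

/-- the number of the vectors which are not linked with `x` -/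
theorem yxx : Pool.Agent.Q283.PQ.S_YXX := by
  classical
  intro k x hne
  refine ⟨fun hA => ?_, fun v hv hx => ⟨?_, fun ζ i j => ?_⟩⟩
  · obtain ⟨i, j, hij⟩ := hne
    have hv : x i + x j ≠ 0 := fun h => hij (add_eq_zero_iff'.mp h)
    obtain ⟨p, q, hp, hq⟩ := hA (x i + x j) hv
    have hpq : x p ≠ x q := fun h => hp (add_eq_zero_iff'.mpr h)
    obtain ⟨i0, i1, i2, g1, g2, g3⟩ : ∃ i0 i1 i2, x i1 ≠ x i0 ∧ x i2 ≠ x i0 ∧ x i1 ≠ x i2 := by
      by_cases c1 : x p = x i
      · refine ⟨i, j, q, hij.symm, ?_, ?_⟩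
        · rw [← c1]; exact hpq.symm
        · intro h
          refine hq ?_
          rw [c1, h]
      · by_cases c2 : x p = x j
        · refine ⟨i, j, q, hij.symm, ?_, ?_⟩
          · intro h
            refine hq ?_
            rw [c2, h, add_comm]
          · rw [← c2]; exact hpq
        · exact ⟨i, j, p, hij.symm, c1, fun h => c2 h.symm⟩
    have hsub : (univ.filter fun W : Fin k → U2 => ∀ i j, om (W i + W j) (x i + x j) = 0) ⊆
        (univ : Finset (U2 × ZMod 2)).image fun c => fun m => c.1 + c.2 • x m := by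
      intro W hW
      rw [mem_filter] at hW
      obtain ⟨c, ε, hc⟩ := structA (W := W) (fun i j => hW.2 i j) g1 g2 g3
      rw [mem_image]
      exact ⟨(c, ε), mem_univ _, (funext hc).symm⟩
    refine (card_le_card hsub).trans (card_image_le.trans ?_)
    rw [card_univ]
    decide
  · obtain ⟨u, hu⟩ := exists_compl v hv
    have hsub : (univ.filter fun W : Fin k → U2 => ∀ i j, om (W i + W j) (x i + x j) = 0) ⊆
        (univ : Finset (ZMod 2 × (Fin k → ZMod 2))).image
          fun c => fun m => c.1 • u + c.2 m • v := by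
      intro W hW
      rw [mem_filter] at hW
      obtain ⟨i0, -, -⟩ := id hne
      have h1 := structB (W := W) (fun i j => hW.2 i j) hne hv hx i0
      choose a ha using h1
      obtain ⟨c, b, hb⟩ := hu (W i0)
      rw [mem_image]
      refine ⟨(b, fun m => a m + c), mem_univ _, funext fun m => ?_⟩
      have h5 : W m = (W m + W i0) + W i0 := by
        rw [add_assoc, two_self, add_zero]
      show b • u + (a m + c) • v = W m
      rw [h5, ha m, hb, add_smul]
      abel
    refine (card_le_card hsub).trans (card_image_le.trans ?_)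
    rw [card_univ, Fintype.card_prod, Fintype.card_fun, ZMod.card, Fintype.card_fin]
  · rcases hx i j with h | h
    · rw [h, om_eq]
      exact om_zero _
    · rw [h, om_eq]
      exact om_vv v _ _

end Pool.Agent.Q265.PQ
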